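import Pool.Agent.Helper25.HL.Goals1

/-!
# Project HL, packet SH: a light shell
-/

set_option autoImplicit false

open Filter Topology

noncomputable section

namespace Pool.Agent.Helper8.HL

open Pool.Agent.Helper25.HL

/-- the mass of a restriction is the sum over the set -/
theorem sq_res {q : ℕ} (S : Finset (Fin q)) (β : Fin q → ℂ) :
    Helper25.HL.sq (res S β) = ∑ t ∈ S, ‖β t‖ ^ 2 := by
  unfold Helper25.HL.sq res
  rw [← Finset.sum_filter_add_sum_filter_not Finset.univ (fun t => t ∈ S)]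
  have h1 : ∑ t ∈ Finset.univ.filter (fun t => t ∈ S), ‖(if t ∈ S then β t else 0)‖ ^ 2
      = ∑ t ∈ S, ‖β t‖ ^ 2 := by
    rw [Finset.filter_mem_eq_inter, Finset.univ_inter]
    refine Finset.sum_congr rfl fun t ht => ?_
    rw [if_pos ht]
  have h2 : ∑ t ∈ Finset.univ.filter (fun t => ¬ t ∈ S), ‖(if t ∈ S then β t else 0)‖ ^ 2
      = 0 := by
    refine Finset.sum_eq_zero fun t ht => ?_
    rw [if_neg (Finset.mem_filter.mp ht).2]
    simp
  rw [h1, h2, add_zero]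

/-- the mass of a difference -/
theorem sq_res_sdiff {q : ℕ} {S S' : Finset (Fin q)} (h : S ⊆ S') (β : Fin q → ℂ) :
    Helper25.HL.sq (res (S' \ S) β) = Helper25.HL.sq (res S' β) - Helper25.HL.sq (res S β) := by
  rw [sq_res, sq_res, sq_res, ← Finset.sum_sdiff h]
  ring

theorem sq_res_le {q : ℕ} (S : Finset (Fin q)) (β : Fin q → ℂ) : Helper25.HL.sq (res S β) ≤ Helper25.HL.sq β := by
  rw [sq_res]
  exact Finset.sum_le_sum_of_subset_of_nonneg (Finset.subset_univ _) fun t _ _ => by positivity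

theorem sq_res_nonneg {q : ℕ} (S : Finset (Fin q)) (β : Fin q → ℂ) : 0 ≤ Helper25.HL.sq (res S β) := by
  rw [sq_res]
  exact Finset.sum_nonneg fun t _ => by positivity

/-- SH: a light shell -/
theorem sh : S_SH := by
  intro q N T ϖ b M ε₅ τ₀ hT hϖ hM hε hε1 hτ
  classical
  have hS : ∀ l t, t ∈ Finset.univ.filter
      (fun t : Fin q => τ₀ * ε₅ ^ l ≤ ∑ j, ϖ j * ‖b j t‖) ↔
      τ₀ * ε₅ ^ l ≤ ∑ j, ϖ j * ‖b j t‖ := fun l t => by simp
  generalize hSd : (fun l : ℕ => Finset.univ.filter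
      (fun t : Fin q => τ₀ * ε₅ ^ l ≤ ∑ j, ϖ j * ‖b j t‖)) = S at hS
  have hS' : ∀ l t, t ∈ S l ↔ τ₀ * ε₅ ^ l ≤ ∑ j, ϖ j * ‖b j t‖ := by
    intro l t
    rw [← hSd]
    exact hS l t
  have hmono : ∀ l, S l ⊆ S (l + 1) := by
    intro l t ht
    rw [hS'] at ht ⊢
    refine le_trans (mul_le_mul_of_nonneg_left ?_ hτ.le) ht
    exact pow_le_pow_of_le_one hε.le hε1.le (Nat.le_succ l)
  have hstep : ∀ l, ∑ j, ϖ j * Helper25.HL.sq (res (S (l + 1) \ S l) (b j)) =
      ∑ j, ϖ j * Helper25.HL.sq (res (S (l + 1)) (b j)) - ∑ j, ϖ j * Helper25.HL.sq (res (S l) (b j)) := by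
    intro l
    rw [← Finset.sum_sub_distrib]
    refine Finset.sum_congr rfl fun j _ => ?_
    rw [sq_res_sdiff (hmono l)]
    ring
  have htot : ∑ l ∈ Finset.range T, ∑ j, ϖ j * Helper25.HL.sq (res (S (l + 1) \ S l) (b j)) ≤ M := by
    have h1 : ∑ l ∈ Finset.range T, ∑ j, ϖ j * Helper25.HL.sq (res (S (l + 1) \ S l) (b j)) =
        ∑ j, ϖ j * Helper25.HL.sq (res (S T) (b j)) - ∑ j, ϖ j * Helper25.HL.sq (res (S 0) (b j)) := by
      rw [← Finset.sum_range_sub (fun l => ∑ j, ϖ j * Helper25.HL.sq (res (S l) (b j))) T]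
      exact Finset.sum_congr rfl fun l _ => hstep l
    have h2 : ∑ j, ϖ j * Helper25.HL.sq (res (S T) (b j)) ≤ ∑ j, ϖ j * Helper25.HL.sq (b j) :=
      Finset.sum_le_sum fun j _ => mul_le_mul_of_nonneg_left (sq_res_le _ _) (hϖ j)
    have h3 : 0 ≤ ∑ j, ϖ j * Helper25.HL.sq (res (S 0) (b j)) :=
      Finset.sum_nonneg fun j _ => mul_nonneg (hϖ j) (sq_res_nonneg _ _)
    linarith
  have hT0 : (0 : ℝ) < T := by exact_mod_cast hT
  have hex : ∃ l ∈ Finset.range T,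
      ∑ j, ϖ j * Helper25.HL.sq (res (S (l + 1) \ S l) (b j)) ≤ M / T := by
    refine Finset.exists_le_of_sum_le (Finset.nonempty_range_iff.mpr (by omega)) ?_
    rw [Finset.sum_const, Finset.card_range, nsmul_eq_mul, mul_div_cancel₀ _ hT0.ne']
    exact htot
  obtain ⟨l, hl, hle⟩ := hex
  exact ⟨l, Finset.mem_range.mp hl, S l, S (l + 1), hmono l, hS' l, hS' (l + 1), hle⟩

end Pool.Agent.Helper8.HL
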